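import Pool.Agent.Lib_MP_318645_int.Classify

set_option autoImplicit false

/-!
# Integral (signed) transversals of Latin arrays

Definitions (in `Pool.Agent.Lib_MP_318645_int.Defs`): `IsLatin`, `symbols`,
`HasIntegralTransversal`, `HasLabelCertificate`, `IsAkbariAlireza`, `HasCyclicLabelling`,
`RowsShare`.

All known lower bounds for `l(n)`, `n ≥ 8`, come from label certificates. Fewer than `3 n / 2`
symbols: the only Latin arrays with such a certificate are the classical ones with `n` symbols and
the arrays of Akbari and Alireza with `n + 2` symbols.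
-/

namespace Pool.Agent.Results.MP_318645_co.IntegralTransversals

open Finset Pool.Agent.MP_318645_int

theorem card_of_AA {n : ℕ} (M : Fin n → Fin n → ℕ) (hA : IsAkbariAlireza M) :
    (symbols M).card ≤ n + 2 := by
  classical
  obtain ⟨m, x, y, hm, hnm, -, -, -, hM⟩ := hA
  have h1 : (symbols M).card ≤ (univ : Finset (Fin m → ZMod 2)).card := by
    have hz : ∃ z : ℕ → (Fin m → ZMod 2), ∀ i j, z (M i j) = x i + y j := by
      refine ⟨fun s => if h : ∃ q : Fin n × Fin n, M q.1 q.2 = s then
        x h.choose.1 + y h.choose.2 else 0, fun i j => ?_⟩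
      have h : ∃ q : Fin n × Fin n, M q.1 q.2 = M i j := ⟨(i, j), rfl⟩
      show (if h : ∃ q : Fin n × Fin n, M q.1 q.2 = M i j then
        x h.choose.1 + y h.choose.2 else 0) = _
      rw [dif_pos h]
      exact (hM _ _ _ _).mp h.choose_spec
    obtain ⟨z, hz⟩ := hz
    refine card_le_card_of_injOn z (fun s _ => mem_coe.mpr (mem_univ _)) ?_
    intro s hs s' hs' h
    rw [mem_coe, symbols, mem_image] at hs hs'
    obtain ⟨⟨i, j⟩, -, rfl⟩ := hs
    obtain ⟨⟨i', j'⟩, -, rfl⟩ := hs'
    rw [hz, hz] at h
    exact (hM _ _ _ _).mpr h
  rw [card_univ] at h1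
  have h2 : Fintype.card (Fin m → ZMod 2) = 2 ^ m := by simp
  rw [h2, ← hnm] at h1
  exact h1

/-- An array of Akbari and Alireza never has exactly `n + 1` symbols. -/
theorem card_ne_of_AA {n : ℕ} (M : Fin n → Fin n → ℕ) (hA : IsAkbariAlireza M) :
    (symbols M).card ≠ n + 1 := by
  classical
  obtain ⟨m, x, y, hm, hnm, hx, hy, hxy, hM⟩ := hA
  have hV : Fintype.card (Fin m → ZMod 2) = n + 2 := by rw [hnm]; simp
  rcases Nat.lt_or_ge 2 n with h2 | h2
  · -- every element is a sum of labels
    have hsurj : ∀ g : Fin m → ZMod 2, ∃ i j, x i + y j = g := by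
      intro g
      have h4 : ((univ.image x) ∩ ((univ.image y).image (fun v => g - v))).Nonempty := by
        rw [← card_pos]
        have h5 := card_union_add_card_inter (univ.image x)
          ((univ.image y).image (fun v => g - v))
        have h6 : ((univ.image x) ∪ ((univ.image y).image (fun v => g - v))).card
            ≤ Fintype.card (Fin m → ZMod 2) := card_le_univ _
        rw [card_image_of_injective _ (sub_right_injective), card_image_of_injective _ hx,
          card_image_of_injective _ hy, card_univ, Fintype.card_fin] at h5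
        omega
      obtain ⟨v, hv⟩ := h4
      rw [mem_inter, mem_image, mem_image] at hv
      obtain ⟨⟨i, -, hi⟩, v', hv', hvv⟩ := hv
      rw [mem_image] at hv'
      obtain ⟨j, -, hj⟩ := hv'
      exact ⟨i, j, by rw [hi, ← hvv, hj]; abel⟩
    choose fi fj hf using hsurj
    have h7 : (univ : Finset (Fin m → ZMod 2)).card ≤ (symbols M).card := by
      refine card_le_card_of_injOn (fun g => M (fi g) (fj g))
        (fun g _ => mem_coe.mpr (mem_symbols M _ _)) ?_
      intro g _ g' _ h
      have := (hM _ _ _ _).mp h
      rwa [hf, hf] at this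
    rw [card_univ, hV] at h7
    omega
  · -- order two: two symbols
    have h3 : 2 ^ 2 ≤ 2 ^ m := Nat.pow_le_pow_right (by norm_num) hm
    have hn : n = 2 := by omega
    subst hn
    obtain ⟨j0, hj0⟩ : x 0 ∈ Set.range y := by rw [← hxy]; exact ⟨0, rfl⟩
    obtain ⟨j1, hj1⟩ : x 1 ∈ Set.range y := by rw [← hxy]; exact ⟨1, rfl⟩
    have hne : j0 ≠ j1 := by
      intro h
      rw [h, hj1] at hj0
      exact absurd (hx hj0) (by decide)
    have e1 : M 1 j1 = M 0 j0 := by
      rw [hM, hj0, hj1, pi_add_self, pi_add_self]
    have e2 : M 1 j0 = M 0 j1 := by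
      rw [hM, hj0, hj1, add_comm]
    have hsub : symbols M ⊆ {M 0 j0, M 0 j1} := by
      intro s hs
      rw [symbols, mem_image] at hs
      obtain ⟨⟨i, j⟩, -, rfl⟩ := hs
      have hj : j = j0 ∨ j = j1 := by omega
      have hi : i = 0 ∨ i = 1 := by omega
      rw [mem_insert, mem_singleton]
      rcases hi with rfl | rfl <;> rcases hj with rfl | rfl
      · left; rfl
      · right; rfl
      · right; exact e2
      · left; exact e1
    have h8 := card_le_card hsub
    have h9 : ({M 0 j0, M 0 j1} : Finset ℕ).card ≤ 2 := card_le_two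
    omega

/-- **Integral transversals of Latin arrays.** Let `M` be a Latin array of order `n`.
(a) `M` has an integral transversal iff no labelling certifies that it has no transversal.
(b) Suppose that `M` has fewer than `3 n / 2` symbols or, more generally, that any two rows share
at least `p` symbols and any two columns share at least `q` symbols, `p, q ≥ 1`, `p + q > n`. Then
`M` has an integral transversal unless it is a Latin square (`n` symbols) with the classical
cyclic labelling, or the array of Akbari and Alireza (`n + 2` symbols); in these two cases it has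
none. In particular `M` has an integral transversal if it has `n + 1` or at least `n + 3`
symbols. -/
theorem result : ∀ (n : ℕ) (M : Fin n → Fin n → ℕ), IsLatin M →
    (HasIntegralTransversal M ↔ ¬ HasLabelCertificate M) ∧
    ((2 * (symbols M).card < 3 * n ∨
        ∃ p q : ℕ, 0 < p ∧ 0 < q ∧ n < p + q ∧
          RowsShare M p ∧ RowsShare (fun j i => M i j) q) →
      (HasIntegralTransversal M ↔
        ¬ ((symbols M).card = n ∧ HasCyclicLabelling M) ∧ ¬ IsAkbariAlireza M) ∧
      ((symbols M).card = n + 1 ∨ n + 3 ≤ (symbols M).card → HasIntegralTransversal M)) := by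
  intro n M hM
  refine ⟨integral_iff M, fun h => ?_⟩
  have hiff : HasIntegralTransversal M ↔
      ¬ ((symbols M).card = n ∧ HasCyclicLabelling M) ∧ ¬ IsAkbariAlireza M := by
    rcases h with h | ⟨p, q, hp, hq, hpq, hr, hc⟩
    · refine classification M hM (p := 2 * n - (symbols M).card) (q := 2 * n - (symbols M).card)
        (by omega) (by omega) (by omega) (rowsShare_of_card M hM) ?_
      have h1 := rowsShare_of_card (fun j i => M i j) (latin_transpose M hM)
      rwa [symbols_transpose] at h1
    · exact classification M hM hp hq hpq hr hc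
  refine ⟨hiff, fun hN => ?_⟩
  rw [hiff]
  refine ⟨fun h1 => by omega, fun h1 => ?_⟩
  rcases hN with hN | hN
  · exact card_ne_of_AA M h1 hN
  · have := card_of_AA M h1
    omega

end Pool.Agent.Results.MP_318645_co.IntegralTransversals
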